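import Pool.Agent.Helper94.PP.GoalsA1
import Pool.Agent.Helper4.RS.PAR
import Pool.Agent.Helper51.RS.GFB
import Pool.Agent.Helper24.RS.LSM
import Pool.Agent.Helper69.RS.UNI

/-!
# Project PP, packet A1-PAR: pairing, uniform
-/

namespace Pool.Agent.Helper33.PP

open NumberField Module IsDedekindDomain
open Pool.Agent.Helper38.RS (hf Gf absN S_LSM S_GFB)
open Pool.Agent.Helper94.PP

theorem s_gfb : S_GFB := Pool.Agent.Helper51.RS.s_gfb Pool.Agent.Helper24.RS.s_lsm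
  Pool.Agent.Helper69.RS.s_uni

section

variable {F : Type} [Field F] [NumberField F]

theorem gw_zero (w : ℝ → ℝ) : gw w (0 : F) = 0 := by
  simp [gw, hf, Pool.Agent.Helper4.RS.absN_zero]

theorem wt_nonneg {a A : ℝ} {w : ℝ → ℝ} (hw : Wt a A w) : 0 ≤ A := by
  have h := hw.bd 1 le_rfl
  rw [Real.one_rpow, mul_one] at h
  exact (abs_nonneg _).trans h

theorem gw_bound {a A : ℝ} {w : ℝ → ℝ} (ha : 0 ≤ a) (hw : Wt a A w) (α : 𝓞 F) :
    |gw w (α : F)| ≤ A := by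
  have hA := wt_nonneg hw
  by_cases h : α = 0
  · subst h
    have : ((0 : 𝓞 F) : F) = 0 := by simp
    rw [this, gw_zero, abs_zero]
    exact hA
  · obtain ⟨_, _, _, hp⟩ := s_gfb F
    have hα : (α : F) ≠ 0 := by
      simpa using h
    obtain ⟨h3, h4⟩ := hp (α : F) hα
    have hG : 0 < Gf (α : F) := lt_of_lt_of_le h3 h4
    have hN := Pool.Agent.Helper4.RS.one_le_absN α h
    have h5 : 0 ≤ absN (α : F) ^ (-a) := Real.rpow_nonneg (by linarith) _
    have h6 : absN (α : F) ^ (-a) ≤ 1 := Real.rpow_le_one_of_one_le_of_nonpos hN (by linarith)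
    have h7 : hf (α : F) / Gf (α : F) ≤ 1 := (div_le_one hG).2 h4
    have h8 : 0 ≤ hf (α : F) / Gf (α : F) := (div_pos h3 hG).le
    have h9 : |w (absN (α : F))| ≤ A :=
      (hw.bd _ hN).trans (by nlinarith)
    rw [gw, abs_mul, abs_of_nonneg h8]
    calc hf (α : F) / Gf (α : F) * |w (absN (α : F))| ≤ 1 * A :=
          mul_le_mul h7 h9 (abs_nonneg _) zero_le_one
      _ = A := one_mul _

theorem summable_gw (h2 : A1_UNF) (w : ℝ → ℝ)
    (hw : Summable fun J : {J : Ideal (𝓞 F) // J ≠ ⊥} ↦ |w (Ideal.absNorm J.1)|) :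
    Summable fun α : 𝓞 F ↦ gw w (α : F) := by
  have h := (h2 F w hw (fun _ ↦ 1) (by simp) ⊤).1
  have h' : Summable ((fun α : 𝓞 F ↦ |gw w (α : F)|) ∘
      ((↑) : {α : 𝓞 F // α ≠ 0 ∧ α ∈ (⊤ : Ideal (𝓞 F))} → 𝓞 F)) := h
  have h'' : Summable fun α : 𝓞 F ↦ |gw w (α : F)| := by
    refine (Function.Injective.summable_iff Subtype.val_injective ?_).1 h'
    intro x hx
    have : x = 0 := by
      by_contra hne
      exact hx ⟨⟨x, hne, Submodule.mem_top⟩, rfl⟩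
    subst this
    have : ((0 : 𝓞 F) : F) = 0 := by simp
    rw [this, gw_zero, abs_zero]
  exact h''.of_abs

/-- the bound for one translation -/
theorem shift_bound [IsTotallyComplex F] (h1 : A1_KEY) (h2 : A1_UNF) (a : ℝ)
    (ha : 1 - 1 / (finrank ℚ F : ℝ) < a) (ha1 : a ≤ 1) (C₁ : ℝ) (hC₁ : 0 ≤ C₁) :
    ∃ C : ℝ, 0 ≤ C ∧ ∀ (A : ℝ) (w : ℝ → ℝ), Wt a A w →
    (Summable fun J : {J : Ideal (𝓞 F) // J ≠ ⊥} ↦ |w (Ideal.absNorm J.1)|) →
    ∀ (Λ : Ideal (𝓞 F)) (N : ℝ), 1 ≤ N → ∀ v : 𝓞 F, house (v : F) ≤ C₁ * N →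
      |(∑' β : Λ, gw w ((v + (β : 𝓞 F) : 𝓞 F) : F)) - ∑' β : Λ, gw w ((β : 𝓞 F) : F)| ≤
        C * A * N ^ (finrank ℚ F + 1) := by
  classical
  have hn : (0 : ℝ) < finrank ℚ F := by exact_mod_cast finrank_pos
  have ha0 : 0 ≤ a := by
    have : 1 / (finrank ℚ F : ℝ) ≤ 1 := by
      rw [div_le_one hn]
      exact_mod_cast Nat.one_le_iff_ne_zero.2 finrank_pos.ne'
    linarith
  obtain ⟨C, hC0, hC⟩ := h1 F a ha0 ha1
  set r : ℝ := (finrank ℚ F : ℝ) * a + 1 with hr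
  have hr' : (finrank ℚ F : ℝ) < r := by
    have h := mul_lt_mul_of_pos_left ha hn
    rw [mul_sub, mul_one, mul_one_div_cancel hn.ne'] at h
    rw [hr]
    linarith
  have hL := Pool.Agent.Helper24.RS.s_lsm F r hr'
  set f : 𝓞 F → ℝ := fun β ↦ if β = 0 then 0 else house (β : F) ^ (-r) with hf'
  have hf0 : ∀ β, 0 ≤ f β := by
    intro β
    simp only [hf']
    split_ifs
    · exact le_rfl
    · exact Real.rpow_nonneg (house_nonneg _) _
  have hfs : Summable f := by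
    have hL' : Summable (f ∘ ((↑) : {α : 𝓞 F // α ≠ 0} → 𝓞 F)) := by
      refine hL.congr ?_
      rintro ⟨b, hb⟩
      simp [hf', hb]
    refine (Function.Injective.summable_iff Subtype.val_injective ?_).1 hL'
    intro x hx
    have : x = 0 := by
      by_contra hne
      exact hx ⟨⟨x, hne⟩, rfl⟩
    simp [hf', this]
  have hLn : 0 ≤ ∑' β, f β := tsum_nonneg hf0
  refine ⟨4 + C * C₁ ^ (finrank ℚ F + 1) * ∑' β, f β, by positivity,
    fun A w hw hws Λ N hN v hv ↦ ?_⟩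
  have hA := wt_nonneg hw
  by_cases hv0 : v = 0
  · subst hv0
    simp only [zero_add, sub_self, abs_zero]
    positivity
  have hdelta : ∀ x : 𝓞 F, HasSum (fun β : 𝓞 F ↦ if β = x then (2 * A) else 0) (2 * A) := by
    intro x
    exact hasSum_ite_eq x (2 * A)
  set B : 𝓞 F → ℝ := fun β ↦ C * A * house (v : F) ^ (finrank ℚ F + 1) * f β +
    (if β = 0 then 2 * A else 0) + (if β = -v then 2 * A else 0) with hB
  have hBs : HasSum B (C * A * house (v : F) ^ (finrank ℚ F + 1) * (∑' β, f β) + 2 * A + 2 * A) :=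
    ((hfs.hasSum.mul_left _).add (hdelta 0)).add (hdelta (-v))
  have hh : 0 ≤ house (v : F) := house_nonneg _
  have hB0 : ∀ β, 0 ≤ B β := by
    intro β
    have e1 : 0 ≤ (if β = 0 then 2 * A else 0) := by
      split_ifs
      · linarith
      · exact le_refl _
    have e2 : 0 ≤ (if β = -v then 2 * A else 0) := by
      split_ifs
      · linarith
      · exact le_refl _
    have e3 : 0 ≤ C * A * house (v : F) ^ (finrank ℚ F + 1) * f β := by
      have := hf0 β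
      positivity
    exact add_nonneg (add_nonneg e3 e1) e2
  have hG : Summable fun α : 𝓞 F ↦ gw w (α : F) := summable_gw h2 w hws
  have hG1 : Summable fun β : Λ ↦ gw w ((v + (β : 𝓞 F) : 𝓞 F) : F) := by
    have : Function.Injective fun β : Λ ↦ v + (β : 𝓞 F) := by
      intro a b hab
      exact Subtype.ext (add_left_cancel hab)
    exact hG.comp_injective this
  have hG2 : Summable fun β : Λ ↦ gw w ((β : 𝓞 F) : F) :=
    hG.comp_injective Subtype.val_injective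
  rw [← hG1.tsum_sub hG2]
  have key : ∀ β : 𝓞 F, |gw w ((v + β : 𝓞 F) : F) - gw w (β : F)| ≤ B β := by
    intro β
    have b1 := gw_bound ha0 hw (v + β)
    have b2 := gw_bound ha0 hw β
    have b3 : |gw w ((v + β : 𝓞 F) : F) - gw w (β : F)| ≤ 2 * A := by
      refine (abs_sub _ _).trans ?_
      linarith
    have e1 : 0 ≤ (if β = 0 then 2 * A else 0) := by
      split_ifs
      · linarith
      · exact le_refl _
    have e2 : 0 ≤ (if β = -v then 2 * A else 0) := by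
      split_ifs
      · linarith
      · exact le_refl _
    have e3 : 0 ≤ C * A * house (v : F) ^ (finrank ℚ F + 1) * f β := by
      have := hf0 β
      positivity
    by_cases hb0 : β = 0
    · refine b3.trans ?_
      have e4 : (if β = 0 then 2 * A else 0) = 2 * A := if_pos hb0
      simp only [hB]
      linarith
    · by_cases hbv : β = -v
      · refine b3.trans ?_
        have e4 : (if β = -v then 2 * A else 0) = 2 * A := if_pos hbv
        simp only [hB]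
        linarith
      · have hbv' : β + v ≠ 0 := by
          intro h
          exact hbv (eq_neg_of_add_eq_zero_left h)
        have k := hC A w hw v β hv0 hb0 hbv'
        rw [abs_sub_comm, add_comm v β]
        refine k.trans ?_
        simp only [hB]
        rw [if_neg hb0, if_neg hbv, add_zero, add_zero]
        have : f β = house (β : F) ^ (-r) := by
          simp only [hf']
          rw [if_neg hb0]
        rw [this]
  have hBΛ : Summable fun β : Λ ↦ B (β : 𝓞 F) :=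
    hBs.summable.comp_injective Subtype.val_injective
  have hab : Summable fun β : Λ ↦
      |gw w ((v + (β : 𝓞 F) : 𝓞 F) : F) - gw w ((β : 𝓞 F) : F)| :=
    Summable.of_nonneg_of_le (fun _ ↦ abs_nonneg _) (fun β ↦ key β) hBΛ
  have hN1 : 1 ≤ N ^ (finrank ℚ F + 1) := one_le_pow₀ hN
  calc |∑' β : Λ, (gw w ((v + (β : 𝓞 F) : 𝓞 F) : F) - gw w ((β : 𝓞 F) : F))|
      ≤ ∑' β : Λ, |gw w ((v + (β : 𝓞 F) : 𝓞 F) : F) - gw w ((β : 𝓞 F) : F)| := by
        have := norm_tsum_le_tsum_norm (f := fun β : Λ ↦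
          (gw w ((v + (β : 𝓞 F) : 𝓞 F) : F) - gw w ((β : 𝓞 F) : F))) (by simpa using hab)
        simpa using this
    _ ≤ ∑' β : Λ, B (β : 𝓞 F) := hab.tsum_le_tsum (fun β ↦ key β) hBΛ
    _ ≤ ∑' β : 𝓞 F, B β :=
        tsum_comp_le_tsum_of_inj hBs.summable hB0 Subtype.val_injective
    _ = C * A * house (v : F) ^ (finrank ℚ F + 1) * (∑' β, f β) + 2 * A + 2 * A := hBs.tsum_eq
    _ ≤ C * A * (C₁ * N) ^ (finrank ℚ F + 1) * (∑' β, f β) + 2 * A + 2 * A := by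
        gcongr
    _ = C * C₁ ^ (finrank ℚ F + 1) * (∑' β, f β) * A * N ^ (finrank ℚ F + 1) + 4 * A * 1 := by
        rw [mul_pow]; ring
    _ ≤ C * C₁ ^ (finrank ℚ F + 1) * (∑' β, f β) * A * N ^ (finrank ℚ F + 1) +
          4 * A * N ^ (finrank ℚ F + 1) := by
        gcongr
    _ = _ := by ring

end

/-- **Packet A1-PAR.** -/
theorem goalPAR (h1 : A1_KEY) (h2 : A1_UNF) (h3 : A1_RPS) : A1_PAR := by
  intro F _ _ _ a ha ha1
  classical
  have hn : (0 : ℝ) < finrank ℚ F := by exact_mod_cast finrank_pos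
  have ha0 : 0 ≤ a := by
    have : 1 / (finrank ℚ F : ℝ) ≤ 1 := by
      rw [div_le_one hn]
      exact_mod_cast Nat.one_le_iff_ne_zero.2 finrank_pos.ne'
    linarith
  obtain ⟨C₁, hC₁, hrps⟩ := h3 F
  obtain ⟨C, hC0, hC⟩ := shift_bound (F := F) h1 h2 a ha ha1 C₁ hC₁
  refine ⟨C, hC0, fun A w hw hws Λ hΛ η hη1 hη ↦ ?_⟩
  have hA := wt_nonneg hw
  have : Finite (𝓞 F ⧸ Λ) := Ideal.finiteQuotientOfFreeOfNeBot Λ hΛ
  have : Fintype (𝓞 F ⧸ Λ) := Fintype.ofFinite _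
  set N : ℝ := (Ideal.absNorm Λ : ℝ) with hN
  have hN1 : 1 ≤ N := by
    have : Ideal.absNorm Λ ≠ 0 := by
      rw [Ne, Ideal.absNorm_eq_zero_iff]
      exact hΛ
    rw [hN]
    exact_mod_cast Nat.one_le_iff_ne_zero.2 this
  have hcard : (Fintype.card (𝓞 F ⧸ Λ) : ℝ) = N := by
    rw [hN, Ideal.absNorm_apply, Submodule.cardQuot_apply, Nat.card_eq_fintype_card]
  set rep₀ : 𝓞 F ⧸ Λ → 𝓞 F := Function.surjInv Ideal.Quotient.mk_surjective with hrep₀
  have hrep₀' : ∀ ρ, Ideal.Quotient.mk Λ (rep₀ ρ) = ρ := fun ρ ↦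
    Function.surjInv_eq Ideal.Quotient.mk_surjective ρ
  choose rep hrepm hreph using fun ρ : 𝓞 F ⧸ Λ ↦ hrps Λ hΛ (rep₀ ρ)
  have hrep' : ∀ ρ, Ideal.Quotient.mk Λ (rep ρ) = ρ := by
    intro ρ
    rw [← hrep₀' ρ, Ideal.Quotient.eq, hrep₀' ρ]
    exact hrepm ρ
  have hηr : ∀ ρ, η (rep ρ) = η (rep₀ ρ) := by
    intro ρ
    have := hη (rep₀ ρ) (rep ρ - rep₀ ρ) (hrepm ρ)
    rwa [add_sub_cancel] at this
  let e : (𝓞 F ⧸ Λ) × Λ ≃ 𝓞 F := Equiv.ofBijective (fun p ↦ rep p.1 + (p.2 : 𝓞 F)) (by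
    constructor
    · rintro ⟨a, x⟩ ⟨b, y⟩ h
      simp only at h
      have hab : a = b := by
        have := congrArg (Ideal.Quotient.mk Λ) h
        rw [map_add, map_add, hrep', hrep', Ideal.Quotient.eq_zero_iff_mem.2 x.2,
          Ideal.Quotient.eq_zero_iff_mem.2 y.2, add_zero, add_zero] at this
        exact this
      subst hab
      have : x = y := Subtype.ext (add_left_cancel h)
      rw [this]
    · intro α
      refine ⟨(Ideal.Quotient.mk Λ α, ⟨α - rep (Ideal.Quotient.mk Λ α), ?_⟩), by simp⟩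
      rw [← Ideal.Quotient.eq_zero_iff_mem, map_sub, hrep', sub_self])
  have hG : Summable fun α : 𝓞 F ↦ gw w (α : F) := summable_gw h2 w hws
  have hg0 : gw w ((0 : 𝓞 F) : F) = 0 := by
    have : ((0 : 𝓞 F) : F) = 0 := by simp
    rw [this, gw_zero]
  -- first sum
  have hS1 : ∑' α : {α : 𝓞 F // α ≠ 0}, η α.1 * (gw w ((α.1 : 𝓞 F) : F) : ℂ) =
      ∑' α : 𝓞 F, η α * (gw w (α : F) : ℂ) := by
    refine tsum_subtype_eq_of_support_subset (f := fun α : 𝓞 F ↦ η α * (gw w (α : F) : ℂ))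
      (s := {α : 𝓞 F | α ≠ 0}) ?_
    intro α hα h0
    rw [Function.mem_support] at hα
    apply hα
    simp only [h0, hg0, Complex.ofReal_zero, mul_zero]
  have hS2 : ∑' α : {α : 𝓞 F // α ≠ 0 ∧ α ∈ Λ}, (gw w ((α.1 : 𝓞 F) : F) : ℂ) =
      ((∑' β : Λ, gw w ((β : 𝓞 F) : F) : ℝ) : ℂ) := by
    rw [← Complex.ofReal_tsum]
    congr 1
    have a1 : ∑' α : {α : 𝓞 F // α ≠ 0 ∧ α ∈ Λ}, gw w ((α.1 : 𝓞 F) : F) =
        ∑' α : 𝓞 F, Set.indicator {α : 𝓞 F | α ≠ 0 ∧ α ∈ Λ} (fun α ↦ gw w (α : F)) α :=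
      tsum_subtype {α : 𝓞 F | α ≠ 0 ∧ α ∈ Λ} (fun α ↦ gw w (α : F))
    have a2 : ∑' β : Λ, gw w ((β : 𝓞 F) : F) =
        ∑' α : 𝓞 F, Set.indicator {α : 𝓞 F | α ∈ Λ} (fun α ↦ gw w (α : F)) α :=
      tsum_subtype {α : 𝓞 F | α ∈ Λ} (fun α ↦ gw w (α : F))
    rw [a1, a2]
    refine tsum_congr fun α ↦ ?_
    by_cases h0 : α = 0
    · subst h0
      simp only [Set.indicator]
      split_ifs <;> simp [gw_zero]
    · by_cases hm : α ∈ Λ <;> simp [Set.indicator, h0, hm]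
  -- the sum over the classes
  have hηb : ∀ (ρ : 𝓞 F ⧸ Λ) (β : Λ), η (rep ρ + (β : 𝓞 F)) = η (rep ρ) := fun ρ β ↦
    hη _ _ β.2
  have hGe : Summable fun p : (𝓞 F ⧸ Λ) × Λ ↦
      η (rep p.1) * (gw w ((rep p.1 + (p.2 : 𝓞 F) : 𝓞 F) : F) : ℂ) := by
    have hs' : Summable fun p : (𝓞 F ⧸ Λ) × Λ ↦ gw w ((rep p.1 + (p.2 : 𝓞 F) : 𝓞 F) : F) :=
      hG.comp_injective e.injective
    refine Summable.of_norm_bounded (g := fun p : (𝓞 F ⧸ Λ) × Λ ↦
      |gw w ((rep p.1 + (p.2 : 𝓞 F) : 𝓞 F) : F)|) hs'.abs ?_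
    intro p
    rw [norm_mul, Complex.norm_real, Real.norm_eq_abs]
    exact mul_le_of_le_one_left (abs_nonneg _) (hη1 _)
  have hS3 : ∑' α : 𝓞 F, η α * (gw w (α : F) : ℂ) =
      ∑ ρ : 𝓞 F ⧸ Λ, η (rep ρ) *
        ((∑' β : Λ, gw w ((rep ρ + (β : 𝓞 F) : 𝓞 F) : F) : ℝ) : ℂ) := by
    rw [← e.tsum_eq (fun α : 𝓞 F ↦ η α * (gw w (α : F) : ℂ))]
    have : ∑' p : (𝓞 F ⧸ Λ) × Λ, η (e p) * (gw w ((e p : 𝓞 F) : F) : ℂ) =
        ∑' p : (𝓞 F ⧸ Λ) × Λ, η (rep p.1) *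
          (gw w ((rep p.1 + (p.2 : 𝓞 F) : 𝓞 F) : F) : ℂ) := by
      refine tsum_congr fun p ↦ ?_
      have he : e p = rep p.1 + (p.2 : 𝓞 F) := rfl
      rw [he, hηb]
    rw [this, hGe.tsum_prod, tsum_fintype]
    refine Finset.sum_congr rfl fun ρ _ ↦ ?_
    rw [Complex.ofReal_tsum]
    exact tsum_mul_left (a := η (rep ρ))
      (f := fun β : Λ ↦ (gw w ((rep ρ + (β : 𝓞 F) : 𝓞 F) : F) : ℂ))
  rw [hS1, hS2, hS3, finsum_eq_sum_of_fintype, Finset.sum_mul, ← Finset.sum_sub_distrib]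
  refine (norm_sum_le _ _).trans ?_
  calc ∑ ρ : 𝓞 F ⧸ Λ, ‖η (rep ρ) * ((∑' β : Λ, gw w ((rep ρ + (β : 𝓞 F) : 𝓞 F) : F) : ℝ) : ℂ) -
          η (rep₀ ρ) * ((∑' β : Λ, gw w ((β : 𝓞 F) : F) : ℝ) : ℂ)‖
      ≤ ∑ ρ : 𝓞 F ⧸ Λ, C * A * N ^ (finrank ℚ F + 1) := by
        refine Finset.sum_le_sum fun ρ _ ↦ ?_
        rw [← hηr ρ, ← mul_sub, norm_mul, ← Complex.ofReal_sub, Complex.norm_real,
          Real.norm_eq_abs]
        exact (mul_le_of_le_one_left (abs_nonneg _) (hη1 _)).trans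
          (hC A w hw hws Λ N hN1 (rep ρ) (hreph ρ))
    _ = C * A * N ^ (finrank ℚ F + 2) := by
        rw [Finset.sum_const, Finset.card_univ, nsmul_eq_mul, hcard]
        ring

end Pool.Agent.Helper33.PP
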